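import Mathlib
import Pool.Agent.Lib_helper38.XA.Defs
set_option autoImplicit false

/-! XA block A7 (helper83) -/

namespace Pool.Agent.XA

open Finset Filter Pool.Agent.XO

variable {V : Type} [AddCommGroup V] [Fintype V] [DecidableEq V]

theorem ags_card (A : Finset V) (m : ℕ) : ((AGs A m).card : ℝ) ≤ (2 * (A.card : ℝ) + 1) ^ m := by
  have h1 : (insert 0 (A ∪ A.image fun a => -a)).card ≤ 2 * A.card + 1 := by
    refine (Finset.card_insert_le _ _).trans ?_
    have h2 := Finset.card_union_le A (A.image fun a => -a)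
    have h3 := Finset.card_image_le (s := A) (f := fun a => -a)
    omega
  have h4 : (AGs A m).card ≤ (2 * A.card + 1) ^ m := by
    unfold AGs
    refine Finset.card_image_le.trans ?_
    rw [Fintype.card_piFinset, Finset.prod_const, Finset.card_univ, Fintype.card_fin]
    exact Nat.pow_le_pow_left h1 m
  exact_mod_cast h4

/-- the order of a signed sum -/
theorem ags_ord {A : Finset V} {m : ℕ} {B : ℝ} (hB : 1 ≤ B) (hA : ∀ c ∈ A, (addOrderOf c : ℝ) ≤ B)
    {g : V} (hg : g ∈ AGs A m) : (addOrderOf g : ℝ) ≤ B ^ m := by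
  unfold AGs at hg
  rw [Finset.mem_image] at hg
  obtain ⟨f, hf, rfl⟩ := hg
  rw [Fintype.mem_piFinset] at hf
  have h1 : ∀ i, (addOrderOf (f i) : ℝ) ≤ B := by
    intro i
    have h2 := hf i
    rw [Finset.mem_insert, Finset.mem_union, Finset.mem_image] at h2
    rcases h2 with h2 | h2 | ⟨a, ha, h2⟩
    · rw [h2, addOrderOf_zero]
      exact_mod_cast hB
    · exact hA _ h2
    · rw [← h2, addOrderOf_neg]
      exact hA a ha
  have h3 : ∀ s : Finset (Fin m), (addOrderOf (∑ i ∈ s, f i) : ℝ) ≤ B ^ s.card := by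
    intro s
    induction s using Finset.induction_on with
    | empty => simp
    | insert i s hi ih =>
      rw [Finset.sum_insert hi, Finset.card_insert_of_notMem hi, pow_succ]
      have h4 : addOrderOf (f i + ∑ j ∈ s, f j) ≤ addOrderOf (f i) * addOrderOf (∑ j ∈ s, f j) :=
        Nat.le_of_dvd (Nat.mul_pos (addOrderOf_pos _) (addOrderOf_pos _))
          (AddCommute.all _ _).addOrderOf_add_dvd_mul_addOrderOf
      have h5 : (addOrderOf (f i + ∑ j ∈ s, f j) : ℝ) ≤
          (addOrderOf (f i) : ℝ) * (addOrderOf (∑ j ∈ s, f j) : ℝ) := by exact_mod_cast h4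
      refine h5.trans ?_
      rw [mul_comm]
      exact mul_le_mul ih (h1 i) (Nat.cast_nonneg _) (by positivity)
  have h6 := h3 Finset.univ
  rw [Finset.card_univ, Fintype.card_fin] at h6
  exact h6

end Pool.Agent.XA
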